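import Pool.Agent.H525.EX.Stm8
import Pool.Agent.H118.EX.GA2

/-! EX/GA3 (for helper525): the reflection equations for the global arrays with a weight. -/

set_option autoImplicit false

namespace Pool.Agent.H379.EX

open Polynomial UniqueFactorizationMonoid
open Pool.Agent.H985.Chow (mob)
open Pool.Agent.H525.QF Pool.Agent.H525.EX
open Pool.Agent.H118.EX (F2_cII F2_cI W_refl pow_split)
open scoped Classical

variable {K : Type} [Field K] [Fintype K]

theorem G0_reflw (href : S_ref) (hpar : S_par2) [CharP K 2] (κ : ℕ) (hκ : Fintype.card K = 2 ^ κ)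
    (h : K[X] → ℕ → ℝ[X]) (hR : HypR ((-1) ^ κ) h) (w : K → ℝ) (N k : ℕ) :
    (k ≤ 4 * N → G0 w h N (4 * N - k) =
      ((-1 : ℝ) ^ κ) ^ N * G0 (fun c => w c * (psi c : ℝ)) h N k) ∧
    (4 * N < k → ∀ ω : K → ℝ, G0 ω h N k = 0) := by
  have key : ∀ j ∈ Finset.range (N + 1), ∀ G ∈ mon K j, ∀ v ∈ cII K (N - j),
      (k ≤ 4 * N → (W h (G ^ 2 * F2 v)).coeff (4 * N - k) =
        ((-1 : ℝ) ^ κ) ^ N * ((psi (v.2.coeff (N - j - 1)) : ℝ) * (W h (G ^ 2 * F2 v)).coeff k)) ∧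
      (4 * N < k → (W h (G ^ 2 * F2 v)).coeff k = 0) := by
    intro j hj G hG v hv
    rw [Finset.mem_range] at hj
    rw [mem_mon] at hG
    unfold cII at hv
    rw [Finset.mem_filter, Finset.mem_product] at hv
    obtain ⟨⟨hv1, hv2⟩, hcop⟩ := hv
    obtain ⟨hF, hFd⟩ := F2_cII (N - j) v hv1 hv2
    obtain ⟨hsq, hmob⟩ := (hpar K κ hκ (N - j) v hcop).2 hv1 hv2
    have := W_refl href ((-1) ^ κ) h hR G (F2 v) hG.1 hF hsq (4 * N)
      (by rw [hG.2, hFd]; omega) k
    refine ⟨fun hk => ?_, this.2⟩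
    rw [this.1 hk, hmob, hG.2]
    push_cast
    rw [← pow_split κ N j (by omega)]
    ring
  unfold G0
  constructor
  · intro hk
    rw [Finset.mul_sum]
    refine Finset.sum_congr rfl fun j hj => ?_
    rw [Finset.mul_sum]
    refine Finset.sum_congr rfl fun G hG => ?_
    rw [Finset.mul_sum]
    refine Finset.sum_congr rfl fun v hv => ?_
    rw [(key j hj G hG v hv).1 hk]
    ring
  · intro hk ω
    refine Finset.sum_eq_zero fun j hj => Finset.sum_eq_zero fun G hG =>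
      Finset.sum_eq_zero fun v hv => ?_
    rw [(key j hj G hG v hv).2 hk, mul_zero]

theorem G1_reflw (href : S_ref) (hpar : S_par2) [CharP K 2] (κ : ℕ) (hκ : Fintype.card K = 2 ^ κ)
    (h : K[X] → ℕ → ℝ[X]) (hR : HypR ((-1) ^ κ) h) (w : K → ℝ) (N k : ℕ) :
    (k ≤ 4 * N + 2 → G1 w h N (4 * N + 2 - k) =
      ((-1 : ℝ) ^ κ) ^ N * G1 (fun c => w c * (psi c : ℝ)) h N k) ∧
    (4 * N + 2 < k → ∀ ω : K → ℝ, G1 ω h N k = 0) := by
  have key : ∀ j ∈ Finset.range (N + 1), ∀ G ∈ mon K j, ∀ v ∈ cI K (N - j),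
      (k ≤ 4 * N + 2 → (W h (G ^ 2 * F2 v)).coeff (4 * N + 2 - k) =
        ((-1 : ℝ) ^ κ) ^ N * ((psi (v.1.coeff (N - j)) : ℝ) * (W h (G ^ 2 * F2 v)).coeff k)) ∧
      (4 * N + 2 < k → (W h (G ^ 2 * F2 v)).coeff k = 0) := by
    intro j hj G hG v hv
    rw [Finset.mem_range] at hj
    rw [mem_mon] at hG
    unfold cI at hv
    rw [Finset.mem_filter, Finset.mem_product] at hv
    obtain ⟨⟨hv1, hv2⟩, hcop⟩ := hv
    obtain ⟨hF, hFd⟩ := F2_cI (N - j) v hv1 hv2
    obtain ⟨hsq, hmob⟩ := (hpar K κ hκ (N - j) v hcop).1 hv1 hv2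
    have := W_refl href ((-1) ^ κ) h hR G (F2 v) hG.1 hF hsq (4 * N + 2)
      (by rw [hG.2, hFd]; omega) k
    refine ⟨fun hk => ?_, this.2⟩
    rw [this.1 hk, hmob, hG.2]
    push_cast
    rw [← pow_split κ N j (by omega)]
    ring
  unfold G1
  constructor
  · intro hk
    rw [Finset.mul_sum]
    refine Finset.sum_congr rfl fun j hj => ?_
    rw [Finset.mul_sum]
    refine Finset.sum_congr rfl fun G hG => ?_
    rw [Finset.mul_sum]
    refine Finset.sum_congr rfl fun v hv => ?_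
    rw [(key j hj G hG v hv).1 hk]
    ring
  · intro hk ω
    refine Finset.sum_eq_zero fun j hj => Finset.sum_eq_zero fun G hG =>
      Finset.sum_eq_zero fun v hv => ?_
    rw [(key j hj G hG v hv).2 hk, mul_zero]

theorem t_ga3 : S_ga3 := by
  intro href hpar K _ _ _ κ hκ h hR w
  constructor
  · intro n e
    unfold g0
    by_cases hn : 0 ≤ n
    · obtain ⟨N, rfl⟩ : ∃ N : ℕ, n = N := ⟨n.toNat, (Int.toNat_of_nonneg hn).symm⟩
      rw [Int.toNat_natCast, zpow_natCast]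
      by_cases h1 : 0 ≤ (N : ℤ) + e
      · by_cases h2 : 0 ≤ (N : ℤ) + (2 * N - e)
        · rw [if_pos ⟨hn, h2⟩, if_pos ⟨hn, h1⟩]
          have h3 := (G0_reflw href hpar κ hκ h hR w N ((N : ℤ) + e).toNat).1 (by omega)
          have h4 : ((N : ℤ) + (2 * N - e)).toNat = 4 * N - ((N : ℤ) + e).toNat := by omega
          rw [h4, h3]
          ring
        · rw [if_neg (fun h => h2 h.2), if_pos ⟨hn, h1⟩]
          have h3 := (G0_reflw href hpar κ hκ h hR w N ((N : ℤ) + e).toNat).2 (by omega)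
          rw [h3, mul_zero, mul_zero]
      · by_cases h2 : 0 ≤ (N : ℤ) + (2 * N - e)
        · rw [if_pos ⟨hn, h2⟩, if_neg (fun h => h1 h.2), mul_zero]
          have h3 := (G0_reflw href hpar κ hκ h hR w N ((N : ℤ) + (2 * N - e)).toNat).2 (by omega)
          rw [h3, mul_zero]
        · rw [if_neg (fun h => h2 h.2), if_neg (fun h => h1 h.2), mul_zero]
    · rw [if_neg (fun h => hn h.1), if_neg (fun h => hn h.1), mul_zero]
  · intro n e
    unfold g1
    by_cases hn : 0 ≤ n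
    · obtain ⟨N, rfl⟩ : ∃ N : ℕ, n = N := ⟨n.toNat, (Int.toNat_of_nonneg hn).symm⟩
      rw [Int.toNat_natCast, zpow_natCast]
      by_cases h1 : 0 ≤ (N : ℤ) + e
      · by_cases h2 : 0 ≤ (N : ℤ) + (2 * N + 2 - e)
        · rw [if_pos ⟨hn, h2⟩, if_pos ⟨hn, h1⟩]
          have h3 := (G1_reflw href hpar κ hκ h hR w N ((N : ℤ) + e).toNat).1 (by omega)
          have h4 : ((N : ℤ) + (2 * N + 2 - e)).toNat = 4 * N + 2 - ((N : ℤ) + e).toNat := by omega
          rw [h4, h3]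
          ring
        · rw [if_neg (fun h => h2 h.2), if_pos ⟨hn, h1⟩]
          have h3 := (G1_reflw href hpar κ hκ h hR w N ((N : ℤ) + e).toNat).2 (by omega)
          rw [h3, mul_zero, mul_zero]
      · by_cases h2 : 0 ≤ (N : ℤ) + (2 * N + 2 - e)
        · rw [if_pos ⟨hn, h2⟩, if_neg (fun h => h1 h.2), mul_zero]
          have h3 := (G1_reflw href hpar κ hκ h hR w N ((N : ℤ) + (2 * N + 2 - e)).toNat).2 (by omega)
          rw [h3, mul_zero]
        · rw [if_neg (fun h => h2 h.2), if_neg (fun h => h1 h.2), mul_zero]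
    · rw [if_neg (fun h => hn h.1), if_neg (fun h => hn h.1), mul_zero]

end Pool.Agent.H379.EX
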